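import Pool.Agent.Helper88.Undec
import Pool.Agent.Helper88.Transport

/-!
The c-conjugacy problem is undecidable for some monoid given by a finite length-reducing
confluent rewriting system.
-/

namespace Pool.Agent.Results.MP_a5b0d0_al.CConjUndecidable

open Pool.Agent.Helper88 Turing
open Nat.Partrec (Code)

theorem om_length {K Γ : Type} [Inhabited Γ] (q : (Option K × Γ) ⊕ (Γ × K)) :
    (TMPass.om q).length ≤ 2 := by
  rcases q with b | ⟨a, q⟩ <;> simp [TMPass.om]

theorem RS_finite {C S : Type} [Finite C] [Finite S] (cross : S → C → C × S)
    (out : S → Option (List C)) (hout : ∀ q l, out q = some l → l.length ≤ 2) :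
    (Sys.RS cross out).Finite := by
  classical
  have : Fintype C := Fintype.ofFinite C
  have : Fintype S := Fintype.ofFinite S
  refine ((List.finite_length_le (Letter C S) 4).prod
    (List.finite_length_le (Letter C S) 4)).subset ?_
  intro p hp
  have h1 : Sys.Rule cross out p.1 p.2 := hp
  have h2 : p.1.length ≤ 4 := by
    obtain ⟨x, y⟩ := p
    cases h1 <;> simp
  have h3 := Sys.length_reducing cross out hout p.1 p.2 hp
  exact ⟨h2, by simp only [Set.mem_ofPred_eq]; omega⟩

theorem primrec_replicate {α : Type} [Primcodable α] (a : α) :
    Primrec (fun k : ℕ => List.replicate k a) := by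
  have h : Primrec (fun k : ℕ => (List.range k).map (fun _ => a)) :=
    Primrec.list_map Primrec.list_range (Primrec.const a).to₂
  exact h.of_eq (fun k => by simp)

theorem computablePred_comp {α β : Type} [Primcodable α] [Primcodable β] {p : β → Prop}
    (hp : ComputablePred p) {f : α → β} (hf : Computable f) :
    ComputablePred (fun a => p (f a)) := by
  obtain ⟨inst, h⟩ := hp
  exact ⟨fun a => inst (f a), h.comp hf⟩

/-- There are a finite alphabet and a finite, length-reducing, confluent rewriting system for which
the c-conjugacy problem of the presented monoid is undecidable. -/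
theorem result : ∃ (n : ℕ) (R : Set (List (Fin n) × List (Fin n))),
    R.Finite ∧ LengthReducing R ∧ Confluent R ∧
      ¬ ComputablePred (fun p : List (Fin n) × List (Fin n) =>
        CConj (cls R p.1) (cls R p.2)) := by
  classical
  obtain ⟨Γ, Λ, iΓ, fΓ, iΛ, N, S, x0, x1, x2, hfin, hsup, hN⟩ := Undec.exists_TM0
  obtain ⟨M, hM⟩ := TMPass.exists_restr N hsup
  have fS : Finite S := hfin
  have fΓ' : Finite Γ := Finite.of_fintype Γ
  let X : Type := Option S × Γ
  let Q : Type := (Option S × Γ) ⊕ (Γ × S)
  have fX : Finite X := inferInstanceAs (Finite (Option S × Γ))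
  have fQ : Finite Q := inferInstanceAs (Finite ((Option S × Γ) ⊕ (Γ × S)))
  let δ : Q → X → X × Option Q := TMPass.dl M
  let ω : Q → List X := TMPass.om
  let q0 : Q := TMPass.q0 S
  let cross := Pass.crossF δ q0
  let out := Pass.outF (X := X) ω
  have hout : ∀ q l, out q = some l → l.length ≤ 2 := by
    intro q l h
    cases q with
    | none => simp [out, Pass.outF] at h
    | some q =>
      simp only [out, Pass.outF, Option.some.injEq] at h
      subst h
      rw [List.length_map]
      exact om_length q
  have : Fintype (Option X) := Fintype.ofFinite _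
  have : Fintype (Option Q) := Fintype.ofFinite _
  let A : Type := Letter (Option X) (Option Q)
  let n : ℕ := Fintype.card A
  let e : A ≃ Fin n := Fintype.equivFin A
  let qs : S := ⟨default, hsup.1⟩
  refine ⟨n, ren e (Sys.RS cross out), ren_finite e (RS_finite cross out hout),
    ren_lengthReducing e (Sys.length_reducing cross out hout),
    ren_confluent e (Sys.confluent cross out), ?_⟩
  intro hC
  -- the words
  let c : ℕ → List X := fun k => (some qs, x0) :: (none, x1) :: List.replicate k (none, x2)
  have hword : ∀ k, c k = TMPass.wd [] qs (x0 :: x1 :: List.replicate k x2).headI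
      (x0 :: x1 :: List.replicate k x2).tail := by
    intro k
    simp [c, TMPass.wd, TMPass.pl]
  have key : ∀ k, CConj (cls (ren e (Sys.RS cross out)) ((Pass.aw (Q := Q) (c k)).map e))
      (cls (ren e (Sys.RS cross out)) ((Pass.bw (Q := Q) (c k)).map e)) ↔
      ¬ (Code.eval (Denumerable.ofNat Code k) 0).Dom := by
    intro k
    rw [← renEquiv_cls, ← renEquiv_cls, cconj_map_iff, Pass.cconj_iff δ ω q0 (c k),
      ← hN k, ← TMPass.halts_init_iff N M hM hsup.1, ← hword k]
    simp only [not_exists]
    rfl
  have hf : Computable (fun k : ℕ => (((Pass.aw (Q := Q) (c k)).map e,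
      (Pass.bw (Q := Q) (c k)).map e) : List (Fin n) × List (Fin n))) := by
    have hr : Primrec (fun k : ℕ =>
        List.replicate k (e (Letter.cell (some (none, x2))))) := primrec_replicate _
    have hu : Primrec (fun k : ℕ => ((Pass.uw (Q := Q) (c k)).map e : List (Fin n))) := by
      have h := Primrec.list_cons.comp (Primrec.const (e (Letter.cell none)))
        (Primrec.list_cons.comp (Primrec.const (e (Letter.cell (some (some qs, x0)))))
          (Primrec.list_cons.comp (Primrec.const (e (Letter.cell (some (none, x1))))) hr))
      exact h.of_eq (fun k => by simp [Pass.uw, c])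
    have ha : Primrec (fun k : ℕ => ((Pass.aw (Q := Q) (c k)).map e : List (Fin n))) := by
      have h := Primrec.list_append.comp hu (Primrec.const [e Letter.stop])
      exact h.of_eq (fun k => by simp [Pass.aw])
    have hb : Primrec (fun k : ℕ => ((Pass.bw (Q := Q) (c k)).map e : List (Fin n))) := by
      have h := Primrec.list_cons.comp (Primrec.const (e Letter.stop)) hu
      exact h.of_eq (fun k => by simp [Pass.bw])
    exact (ha.pair hb).to_comp
  have h1 : ComputablePred (fun k : ℕ => ¬ (Code.eval (Denumerable.ofNat Code k) 0).Dom) :=
    (computablePred_comp hC hf).of_eq key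
  have h2 : ComputablePred (fun k : ℕ => (Code.eval (Denumerable.ofNat Code k) 0).Dom) := by
    have := h1.not
    exact this.of_eq (fun k => by simp)
  have h3 : ComputablePred (fun c : Code => (Code.eval c 0).Dom) :=
    (computablePred_comp h2 (Computable.encode (α := Code))).of_eq (fun c => by simp)
  exact ComputablePred.halting_problem 0 h3

end Pool.Agent.Results.MP_a5b0d0_al.CConjUndecidable
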